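import Mathlib
import Pool.Agent.K9h10.PD.Main
import Pool.Agent.K9h10.SM.NonLiou

set_option autoImplicit false

/-!
# The multiples `a π` by the integers `a` with prescribed numbers of digits
-/

namespace Pool.Agent.Results.MP_57632f_nt.PrescribedDigitCounts

open Finset

/-- the words of length `N` over `{0, …, b - 1}` in which every letter `c` occurs `κ c` times -/
def Words {b : ℕ} (N : ℕ) (κ : Fin b → ℕ) : Finset (Fin N → Fin b) :=
  univ.filter fun a => ∀ c, (univ.filter fun i => a i = c).card = κ c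

/-- the integer with the base `b` digits `a (N - 1), …, a 1, a 0` (most significant digit first) -/
def value {b N : ℕ} (a : Fin N → Fin b) : ℕ := ∑ i, (a i : ℕ) * b ^ (i : ℕ)

/-- Let `α` be irrational and algebraic over `ℚ(π)` (for instance `α = π`), `b ≥ 2`, `0 ≤ s ≤ t ≤ 1`
and `ε > 0`. There is `K` such that for all real `y`, all `N ≥ 2` and all digit counts `κ` with sum
`N` for which `N - κ c ≥ K N / log N` for every digit `c`, the proportion of the integers `a` with `N`
base `b` digits, `κ c` of them equal to `c` for every `c`, for which the fractional part of `y + α a`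
lies in `[s, t)`, differs from `t - s` by at most `ε`. -/
theorem result (b : ℕ) (hb : 2 ≤ b) (α : ℝ) (hα : Irrational α)
    (hπ : IsAlgebraic (Algebra.adjoin ℤ ({Real.pi} : Set ℝ)) α) (s t : ℝ) (hs : 0 ≤ s) (hst : s ≤ t)
    (ht : t ≤ 1) (ε : ℝ) (hε : 0 < ε) :
    ∃ K : ℝ, ∀ (y : ℝ) (N : ℕ), 2 ≤ N → ∀ κ : Fin b → ℕ, ∑ c, κ c = N →
      (∀ c, K * (N / Real.log N) ≤ (N : ℝ) - κ c) →
      |((((Words N κ).filter fun a => s ≤ Int.fract (y + α * value a) ∧
          Int.fract (y + α * value a) < t).card : ℕ) : ℝ) - (t - s) * (Words N κ).card| ≤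
        ε * (Words N κ).card := by
  obtain ⟨K, hK⟩ := Pool.Agent.K9h10.PD.main hb hα
    (Pool.Agent.K9h10.SM.not_liouville_of_alg_pi hπ) s t hs hst ht ε hε
  refine ⟨K, fun y N hN κ hκ hc => ?_⟩
  have hv : ∀ a : Fin N → Fin b, Pool.Agent.K9h10.PD.vl a = (value a : ℝ) := by
    intro a
    unfold Pool.Agent.K9h10.PD.vl value
    push_cast
    rfl
  have hlog : 0 < Real.log N := Real.log_pos (by exact_mod_cast (by omega : 1 < N))
  have h := hK y N hN κ hκ (fun c => by
    have h1 := hc c
    rw [mul_div_assoc', div_le_iff₀ hlog] at h1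
    exact h1)
  simp_rw [hv] at h
  exact h

end Pool.Agent.Results.MP_57632f_nt.PrescribedDigitCounts
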