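import Pool.Agent.K9h10.RQ.Main
import Pool.Agent.H340R2.LW

/-!
# The digits of `(a / (d q)) π` for pairwise coprime `q`, jointly in several bases

By a theorem of Wall `π` is normal in base `b` if and only if one (or every) multiple `(a / q) π`,
`a / q ≠ 0` rational, is normal in base `b`. Let `Q` be any finite set of pairwise coprime integers
`q ≥ 2`, with the product `P`; for instance the set of all primes `q ≤ H`, where `log P` is of order `H`.
For nearly all `q` of `Q` (in the sense that the product of the exceptional `q` is at most `P ^ ε`) and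
for nearly all `a` modulo `q` we show that all initial segments of the expansion of `(a / q) π` are
equidistributed up to `ε`, from the length `C` up to the length `c log P`, and that this holds jointly
for all bases `b ≤ B`: each block of digits in base `2` together with each block of digits in base `3` at
the same places and so on. If `a` runs only through a shorter interval of `q / D` or more integers the
length of the initial segments is between `C (1 + log D)` and `c (log P) / D`; so for the primes `q ≤ H`
only `C log H` successive numerators are needed for results on the digits at places of order `log H`. The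
same is true for the denominators `d q`, with a dependence on `d` which is logarithmic.

More generally let `b_1, …, b_s > 1` be real numbers and let `x_1, …, x_s` be real numbers such that the
`x_l` which belong to the same base `b_l` are linearly independent over `ℚ` (for different bases nothing
is supposed but `x_l ≠ 0`). Then the same is true for the sequence of the points
`((a / (d q)) x_1 b_1^i, …, (a / (d q)) x_s b_s^i)` of the `s`-dimensional torus. Examples: `x_l = π` for
all `l` and `b_1, …, b_s` different; `b_1 = … = b_s = 10` and `x = (1, π, π^2, …, π^{s-1})`, by the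
theorem of Lindemann; more generally `x_l = π ^ (k_l)`, where the pairs `(k_l, b_l)` are different
(lemma `pi_powers`). Since fixed numbers `y_l` can be added, this includes the numbers `π + a / (d q)`
(`x_l = 1`, `y_l = π`).

For all `x ≠ 0` together the range `n ≤ c log P` is of the right order, for every set `Q` (`d = D = 1`):
there are `x ≠ 0` for which `x b ^ L` is very near to the integer `P`, where `L = O(log P)`, and then the
expansion of `(a / q) x` has a long run of equal digits after the place `L`, for all `q ∈ Q` and all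
`a`. (This remark is not proved here.)

Proof. The second moment over `a` of the sum of the `exp(2πi ∑_l h_l (y_l + (a / q) x_l) b_l^i)`, `i ≤ n`,
is expanded; the sums over `a` are geometric sums with the frequencies `(X_i - X_j) / q`, where
`X_i = ∑_l h_l x_l b_l^i`. If such a number is nearer than `T D / q` to an integer, then `q` divides an
integer which differs from `X_i - X_j` by at most `T D`. If the integer `0` is not among them, there are
at most `2 T D + 1` such integers, each of them of size at most `exp(O(n))`, so that the sum of the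
`log q` for these `q` is `O(T D n)`: compared with `log P` this is small for a `T` of moderate size. The
remaining pairs `i, j` have `i, j ≤ O(1 + log D + log n)`: the coefficient of the largest base `γ` with
`∑_{b_l = γ} h_l x_l ≠ 0` dominates, so that `|X_i|` grows exponentially. This is applied for `n` of the
order of each power of `4`; the exceptional sets add up to a small set since their sizes decrease
geometrically at both ends. The treatment of the geometric sums is taken from the starting file
`Pool.Agent.R485.Mult.Disc`, the passage from exponential sums to boxes from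
`Pool.Agent.R485.TransS.Box`.
-/

set_option autoImplicit false

namespace Pool.Agent.Results.MP_57632f_nt.PrimeDenominators

open Finset Filter

/-- for all boxes `[u_1, v_1) × … × [u_s, v_s)` in `[0, 1)^s` the number of `i` with `1 ≤ i ≤ n` such that
the fractional part of `z_l b_l^i` lies in `[u_l, v_l)` for all `l` differs from the volume of the box
times `n` by at most `ε n` -/
def JointlyEquidistributed {s : ℕ} (b : Fin s → ℝ) (n : ℕ) (ε : ℝ) (z : Fin s → ℝ) : Prop :=
  ∀ u v : Fin s → ℝ, (∀ l, 0 ≤ u l ∧ u l < v l ∧ v l ≤ 1) →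
    |(({i : ℕ | 1 ≤ i ∧ i ≤ n ∧ ∀ l, u l ≤ Int.fract (z l * b l ^ i) ∧
      Int.fract (z l * b l ^ i) < v l}.ncard : ℕ) : ℝ) - (∏ l, (v l - u l)) * n| ≤ ε * n

lemma jointlyEquidistributed_of {s : ℕ} (b : Fin s → ℝ) (n : ℕ) (ε : ℝ) (z : Fin s → ℝ)
    (h : Pool.Agent.K9h10.RG.Dev b n (ε * n) z) : JointlyEquidistributed b n ε z := by
  classical
  intro u v huv
  have e2 : {i : ℕ | 1 ≤ i ∧ i ≤ n ∧ ∀ l, u l ≤ Int.fract (z l * b l ^ i) ∧
      Int.fract (z l * b l ^ i) < v l} = (((Icc 1 n).filter (fun i : ℕ => ∀ l,
        u l ≤ Int.fract (z l * b l ^ i) ∧ Int.fract (z l * b l ^ i) < v l) : Finset ℕ) : Set ℕ) := by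
    ext i
    simp only [Set.mem_ofPred_eq, coe_filter, mem_Icc]
    tauto
  rw [e2, Set.ncard_coe_finset]
  exact h u v huv

/-- the condition on the numbers `x_l` -/
lemma cond_of {s : ℕ} (b x : Fin s → ℝ)
    (hx : ∀ β : ℝ, LinearIndependent ℚ (fun k : {k : Fin s // b k = β} => x k)) :
    ∀ h : Fin s → ℤ, h ≠ 0 →
      ∃ γ : ℝ, ∑ k ∈ univ.filter (fun k => b k = γ), h k * x k ≠ 0 := by
  classical
  intro h hh
  obtain ⟨k0, hk0⟩ := Function.ne_iff.1 hh
  refine ⟨b k0, fun h0 => hk0 ?_⟩
  have h1 := Fintype.linearIndependent_iff.1 (hx (b k0)) (fun k => (h k : ℚ)) (by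
    rw [← h0, Finset.sum_subtype (univ.filter fun k => b k = b k0) (p := fun k => b k = b k0)
      (fun k => by simp) (fun k => (h k : ℝ) * x k)]
    refine sum_congr rfl fun k _ => ?_
    rw [Rat.smul_def, Rat.cast_intCast]) ⟨k0, rfl⟩
  simpa using h1

/-- the condition of the theorem holds for powers of `π`, with different pairs `(k_l, b_l)` -/
lemma pi_powers {s : ℕ} (k : Fin s → ℕ) (b : Fin s → ℝ)
    (hk : Function.Injective fun l => (k l, b l)) (β : ℝ) :
    LinearIndependent ℚ (fun l : {l : Fin s // b l = β} => Real.pi ^ k l) := by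
  have h0 : Function.Injective (Polynomial.aeval (R := ℚ) Real.pi) :=
    transcendental_iff_injective.1 Pool.Agent.H340R2.LW.transcendental_pi
  have h1 := (Polynomial.basisMonomials ℚ).linearIndependent
  have h2 := h1.map' (Polynomial.aeval (R := ℚ) Real.pi).toLinearMap (LinearMap.ker_eq_bot.2 h0)
  have h3 := h2.comp (fun l : {l : Fin s // b l = β} => k l) (by
    intro l l' hl
    apply Subtype.ext
    apply hk
    simp only at hl ⊢
    rw [l.2, l'.2, hl])
  have h4 : (fun l : {l : Fin s // b l = β} => Real.pi ^ k l) =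
      ((Polynomial.aeval (R := ℚ) Real.pi).toLinearMap ∘ Polynomial.basisMonomials ℚ) ∘
        fun l : {l : Fin s // b l = β} => k l := by
    ext l
    simp
  rw [h4]
  exact h3

/-- Let `b_1, …, b_s > 1` be real numbers and let `ε > 0`. There is `c > 0` such that for all real numbers
`x_1, …, x_s` with the property that for each `β` the numbers `x_l` with `b_l = β` are linearly
independent over `ℚ` there is `C` with the following property.

Let `d ≥ 1` be an integer, `D ≥ 1` real and let `Q` be a finite set of pairwise coprime integers `q ≥ 2`,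
with the product `P`. There is a subset `E` of `Q`, with a product of at most `P ^ ε`, such that for all
`q ∈ Q \ E`, for all real `y_1, …, y_s`, all integers `J` and all `M ≥ q / D`: for all but at most `ε M` of
the `M` integers `J ≤ a < J + M`, for all `n` with `C + c⁻¹ log (d D) ≤ n ≤ c (log P) / D` the first `n`
points of the sequence `((y_1 + (a / (d q)) x_1) b_1^i, …, (y_s + (a / (d q)) x_s) b_s^i)_{i ≥ 1}` are
equidistributed modulo `1` up to `ε`. -/
theorem result (s : ℕ) (b : Fin s → ℝ) (hb : ∀ l, 1 < b l) (ε : ℝ) (hε : 0 < ε) :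
    ∃ c : ℝ, 0 < c ∧ ∀ x : Fin s → ℝ,
      (∀ β : ℝ, LinearIndependent ℚ (fun l : {l : Fin s // b l = β} => x l)) → ∃ C : ℝ,
    ∀ (d : ℕ) (D : ℝ) (Q : Finset ℕ), 1 ≤ d → 1 ≤ D → (∀ q ∈ Q, 2 ≤ q) →
      (∀ q ∈ Q, ∀ q' ∈ Q, q ≠ q' → Nat.Coprime q q') →
      ∃ E ⊆ Q, ∏ q ∈ E, (q : ℝ) ≤ (∏ q ∈ Q, (q : ℝ)) ^ ε ∧
        ∀ q ∈ Q, q ∉ E → ∀ (y : Fin s → ℝ) (J : ℤ) (M : ℕ), (q : ℝ) / D ≤ M →
          (({a : ℤ | J ≤ a ∧ a < J + M ∧ ¬ ∀ n : ℕ,
            C + Real.log (d * D) / c ≤ n → (n : ℝ) ≤ c * (Real.log (∏ q ∈ Q, (q : ℝ)) / D) →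
              JointlyEquidistributed b n ε (fun l => y l + a / (d * q) * x l)}.ncard : ℕ) : ℝ) ≤
                ε * M := by
  classical
  set δ : ℝ := min ε 1 with hδ
  have hδ0 : 0 < δ := lt_min hε one_pos
  have hδε : δ ≤ ε := min_le_left _ _
  have hδ1 : δ ≤ 1 := min_le_right _ _
  obtain ⟨c, hc, hmain⟩ := Pool.Agent.K9h10.RQ.main s b hb (δ ^ 2) (by positivity)
  refine ⟨c, hc, fun x hx => ?_⟩
  obtain ⟨C, hC⟩ := hmain x (cond_of b x hx)
  refine ⟨C, fun d D Q hd hD hQ2 hQ => ?_⟩
  have hD0 : 0 < D := by linarith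
  have hlogP : ∀ F : Finset ℕ, F ⊆ Q →
      Real.log (∏ q ∈ F, (q : ℝ)) = ∑ q ∈ F, Real.log q := by
    intro F hF
    refine Real.log_prod fun q hq => ?_
    have := hQ2 q (hF hq)
    exact_mod_cast (by omega : q ≠ 0)
  have hprod : ∀ F : Finset ℕ, F ⊆ Q → 0 < ∏ q ∈ F, (q : ℝ) := by
    intro F hF
    refine prod_pos fun q hq => ?_
    have := hQ2 q (hF hq)
    exact_mod_cast (by omega : 0 < q)
  have hTh : Real.log (∏ q ∈ Q, (q : ℝ)) = Pool.Agent.K9h10.RQ.Th Q := hlogP Q (Subset.refl _)
  rw [hTh]
  set lo : ℝ := C + Real.log (d * D) / c with hlo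
  have hlo' : C + 1 / c * Real.log (d * D) = lo := by
    rw [hlo]
    ring
  set hi : ℝ := c * (Pool.Agent.K9h10.RQ.Th Q / D) with hhi
  -- the exceptional numerators
  set S : ℕ → (Fin s → ℝ) → ℤ → ℕ → Set ℤ := fun q y J M => {a : ℤ | J ≤ a ∧ a < J + M ∧ ¬ ∀ n : ℕ,
    lo ≤ n → (n : ℝ) ≤ hi →
      JointlyEquidistributed b n ε (fun l => y l + a / (d * q) * x l)} with hS
  -- the exceptional denominators
  set Exc : ℕ → Prop := fun q => ¬ ∀ (y : Fin s → ℝ) (J : ℤ) (M : ℕ), (q : ℝ) / D ≤ M →
    ((S q y J M).ncard : ℝ) ≤ ε * M with hExc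
  -- the worst case
  have hch : ∀ q : ℕ, ∃ t : (Fin s → ℝ) × ℤ × ℕ, (q : ℝ) / D ≤ t.2.2 ∧
      (Exc q → ε * t.2.2 < ((S q t.1 t.2.1 t.2.2).ncard : ℝ)) := by
    intro q
    by_cases h : Exc q
    · have h' := h
      rw [hExc] at h'
      push Not at h'
      obtain ⟨y, J, M, hM, hyJ⟩ := h'
      exact ⟨(y, J, M), hM, fun _ => hyJ⟩
    · refine ⟨(0, 0, q), ?_, fun hn => absurd hn h⟩
      exact div_le_self (Nat.cast_nonneg q) hD
  choose t ht1 ht2 using hch
  have hbd := hC d D Q (fun q => (t q).2.2) hd hD
    (fun q hq q' hq' hne => hQ q (mem_coe.1 hq) q' (mem_coe.1 hq') hne)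
    (fun q hq => le_trans (by norm_num) (hQ2 q hq))
    (fun q _ => by
      have := ht1 q
      rw [div_le_iff₀ hD0] at this
      linarith) (fun q => (t q).1) (fun q => (t q).2.1)
  rw [hlo'] at hbd
  -- comparison of the exceptional sets
  have hcmp : ∀ q : ℕ, ((S q (t q).1 (t q).2.1 (t q).2.2).ncard : ℝ) ≤
      ((Pool.Agent.K9h10.RQ.Bad b (t q).2.2 (δ ^ 2) lo hi (fun k => x k / d) (fun q => (t q).1)
        (fun q => (t q).2.1) q).card : ℝ) := by
    intro q
    refine Nat.cast_le.2 ?_
    have hsub : S q (t q).1 (t q).2.1 (t q).2.2 ⊆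
        (((Pool.Agent.K9h10.RQ.Bad b (t q).2.2 (δ ^ 2) lo hi (fun k => x k / d) (fun q => (t q).1)
          (fun q => (t q).2.1) q).image (fun m : ℕ => (t q).2.1 + (m : ℤ)) : Finset ℤ) : Set ℤ) := by
      rintro a ⟨ha1, ha2, hbad⟩
      rw [mem_coe, mem_image]
      refine ⟨(a - (t q).2.1).toNat, ?_, by omega⟩
      unfold Pool.Agent.K9h10.RQ.Bad
      rw [mem_filter, mem_range]
      refine ⟨by omega, fun hcon => hbad ?_⟩
      intro n hn1 hn2
      have h4 := hcon n hn1 hn2
      have e1 : ∀ l, (((t q).2.1 : ℝ) + ((a - (t q).2.1).toNat : ℕ)) * (x l / d / q) =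
          a / (d * q) * x l := by
        intro l
        have : (((a - (t q).2.1).toNat : ℕ) : ℤ) = a - (t q).2.1 := Int.toNat_of_nonneg (by omega)
        have e2 : ((((a - (t q).2.1).toNat : ℕ) : ℤ) : ℝ) = ((a - (t q).2.1 : ℤ) : ℝ) := by rw [this]
        push_cast at e2
        rw [e2]
        ring
      simp only [e1] at h4
      apply jointlyEquidistributed_of
      intro u v huv
      refine (h4 u v huv).trans ?_
      apply mul_le_mul_of_nonneg_right _ (Nat.cast_nonneg n)
      nlinarith
    refine (Set.ncard_le_ncard hsub (finite_toSet _)).trans ?_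
    rw [Set.ncard_coe_finset]
    exact card_image_le
  refine ⟨Q.filter Exc, filter_subset _ _, ?_, ?_⟩
  · have hE : Q.filter Exc ⊆ Q := filter_subset _ _
    have hTh0 := Pool.Agent.K9h10.RQ.Th_nonneg Q
    have h1 : (∑ q ∈ Q.filter Exc, Real.log q) * ε ≤ δ ^ 2 * Pool.Agent.K9h10.RQ.Th Q := by
      rw [sum_mul]
      refine le_trans (sum_le_sum fun q hq => ?_) ((sum_le_sum_of_subset_of_nonneg hE
        fun q _ _ => ?_).trans hbd)
      · apply mul_le_mul_of_nonneg_left _ (Real.log_natCast_nonneg q)
        have h2 := ht2 q (mem_filter.1 hq).2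
        have h3 := hcmp q
        have h4 : (0 : ℝ) < (t q).2.2 := by
          have h5 := ht1 q
          have h6 : (0 : ℝ) < q := by
            have := hQ2 q (hE hq)
            exact_mod_cast (by omega : 0 < q)
          have h7 : 0 < (q : ℝ) / D := by positivity
          linarith
        rw [le_div_iff₀ h4]
        linarith
      · exact mul_nonneg (Real.log_natCast_nonneg q) (by positivity)
    have h2 : ∑ q ∈ Q.filter Exc, Real.log q ≤ ε * Pool.Agent.K9h10.RQ.Th Q := by
      have h3 : δ ^ 2 ≤ ε ^ 2 := pow_le_pow_left₀ hδ0.le hδε 2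
      have h4 : δ ^ 2 * Pool.Agent.K9h10.RQ.Th Q ≤ ε ^ 2 * Pool.Agent.K9h10.RQ.Th Q :=
        mul_le_mul_of_nonneg_right h3 hTh0
      have h5 : (∑ q ∈ Q.filter Exc, Real.log q) * ε ≤ (ε * Pool.Agent.K9h10.RQ.Th Q) * ε := by
        linarith
      exact le_of_mul_le_mul_right h5 hε
    rw [← Real.log_le_log_iff (hprod _ hE) (Real.rpow_pos_of_pos (hprod Q (Subset.refl _)) _),
      Real.log_rpow (hprod Q (Subset.refl _)), hTh, hlogP _ hE]
    exact h2
  · intro q hq hqE
    rw [mem_filter, not_and] at hqE
    have h1 := hqE hq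
    rw [hExc, not_not] at h1
    exact h1

end Pool.Agent.Results.MP_57632f_nt.PrimeDenominators
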