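import Mathlib
import Pool.Agent.K9h10.SM.Main
import Pool.Agent.K9h10.SM.NonLiou

set_option autoImplicit false

/-!
# Multiples of `π` by random sparse numbers are normal
-/

namespace Pool.Agent.Results.MP_57632f_nt.RandomSparseMultiples

open MeasureTheory ProbabilityTheory Filter Topology

/-- every word of `k ≥ 1` digits has frequency `b ^ (-k)` in the base `b` expansion of `x` -/
def NormalTo (b : ℕ) (x : ℝ) : Prop :=
  ∀ k : ℕ, 0 < k → ∀ w : Fin k → Fin b,
    Tendsto
      (fun n : ℕ =>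
        ((((Finset.range n).filter
            (fun i : ℕ => ∀ j : Fin k,
              ⌊x * (b : ℝ) ^ (i + 1 + (j : ℕ))⌋ % (b : ℤ) = (((w j : ℕ)) : ℤ))).card : ℝ)
          / (n : ℝ)))
      atTop (𝓝 ((1 : ℝ) / (b : ℝ) ^ k))

/-- `x` is algebraic over the ring `ℤ[z]` (equivalently, over the field `ℚ(z)`) -/
def AlgebraicOver (z x : ℝ) : Prop := IsAlgebraic (Algebra.adjoin ℤ ({z} : Set ℝ)) x

/-- Let `X 0, X 1, …` be independent random integers, bounded by `K`, such that
`P(X i ≠ a i) log i → ∞` for every sequence of integers `a i`, and let `Y` be a countable set of real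
numbers. Almost surely, for all `b ≥ 2`, all `y` in `Y` and all irrational numbers `α` algebraic over
`ℚ(π)` (such as `π`) the number `y + α ∑ X i b ^ (-i)` is normal in base `b`. -/
theorem result {Ω : Type*} [MeasurableSpace Ω] (P : Measure Ω) [IsProbabilityMeasure P]
    (X : ℕ → Ω → ℤ) (hX : ∀ i, Measurable (X i)) (hI : iIndepFun X P)
    (K : ℕ) (hK : ∀ i ω, |X i ω| ≤ (K : ℤ))
    (hv : ∀ a : ℕ → ℤ, Tendsto (fun i : ℕ => P.real {ω | X i ω ≠ a i} * Real.log i) atTop atTop)
    (Y : Set ℝ) (hY : Y.Countable) :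
    ∀ᵐ ω ∂P, ∀ b : ℕ, 2 ≤ b → ∀ y ∈ Y, ∀ α : ℝ, Irrational α → AlgebraicOver Real.pi α →
      NormalTo b (y + α * ∑' i, (X i ω : ℝ) / (b : ℝ) ^ i) := by
  have hcount : {α : ℝ | AlgebraicOver Real.pi α}.Countable := by
    have := Pool.Agent.K9h10.SM.countable_adjoin Real.pi
    exact Algebraic.countable (Algebra.adjoin ℤ ({Real.pi} : Set ℝ)) ℝ
  rw [ae_all_iff]
  intro b
  by_cases hb : 2 ≤ b
  swap
  · exact Eventually.of_forall fun ω h => absurd h hb
  have h1 : ∀ᵐ ω ∂P, ∀ y ∈ Y, ∀ α ∈ {α : ℝ | AlgebraicOver Real.pi α}, Irrational α →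
      NormalTo b (y + α * ∑' i, (X i ω : ℝ) / (b : ℝ) ^ i) := by
    rw [ae_ball_iff hY]
    intro y _
    rw [ae_ball_iff hcount]
    intro α hα
    by_cases hirr : Irrational α
    · have h2 := Pool.Agent.K9h10.SM.normal_ae' (P := P) hb hirr
        (Pool.Agent.K9h10.SM.not_liouville_of_alg_pi hα) y hX hI K hK hv
      filter_upwards [h2] with ω hω _
      exact hω
    · exact Eventually.of_forall fun ω h => absurd h hirr
  filter_upwards [h1] with ω hω _ y hy α hirr hα
  exact hω y hy α hα hirr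

end Pool.Agent.Results.MP_57632f_nt.RandomSparseMultiples
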