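import Pool.Agent.K9h10.RM.Main

/-!
# The digits of the rational multiples of `π`

Let `x ≠ 0` be a real number, for instance `x = π`. By a theorem of Wall `π` is normal in base `b` if and
only if one (or every) multiple `(a / q) π`, `a / q ≠ 0` rational, is normal in base `b`. We show that
nearly all of these numbers have the digits of a random number up to a power of the height of `a / q`.

For `D = 1`: let `q ≤ H` and let `a` run through `H` successive integers. For all but at most `ε H` of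
the `q` and all but at most `H / N ^ A` of the `a` the number `y + (a / q) x` has in all bases `b ≤ B`
the discrepancy `N ^ (-1/2 + δ)` of a random number up to the `N`-th digit, where `N = H ^ c` and `c > 0`
depends only on `B`, `A`, `δ`, `ε`.  For multiples `m x` with `m ≤ M` only `C log M` digits can be
treated in this way.

For `D = H / N ^ (r + A)`: let `N` be between `(log_2 H) ^ 2` and `H ^ (1 / (r + A))`. For all but at
most `H / N ^ A` of the primes `q ≤ H` the numerators `a` may run through an interval of length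
`N ^ (r + A)` only.

In general the exceptional denominators `q` are composed of the primes of a set `Q` of at most `D N ^ r`
primes.

Proof. The `2s`-th moment over `a` of `∑_{i ≤ n} exp(2πi h (y + (a / q) x) b^i)` is expanded; the sums
over `a` are geometric sums with the frequencies `(h / q) x K`, `K = ∑_j ± b^(i_j)`. If such a number is
near to an integer and `K ≠ 0`, then `q` divides an integer near to `h x K`. This integer is not zero
(after the first `O(log N D)` digits have been left out), and it has at most `O(N)` prime factors. So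
`q` is composed of the prime factors of at most `N ^ O(s) D` integers, and there are few such integers
`q`, as one sees from the sum of their logarithms and the theorem of Mertens.  The number of the
solutions of `K = 0` is taken from the starting file `Pool.Agent.R485.Mult.Count`.
-/

set_option autoImplicit false

namespace Pool.Agent.Results.MP_57632f_nt.RationalMultiples

open Finset Filter

/-- for every `n ≤ N` the number of `i` with `1 ≤ i ≤ n` such that the fractional part of `z b^i` lies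
in `[α, β)` differs from `(β - α) n` by at most `E`, for all intervals `[α, β) ⊆ [0, 1)` -/
def DiscrepancyUpTo (b N : ℕ) (E z : ℝ) : Prop :=
  ∀ n : ℕ, n ≤ N → ∀ α β : ℝ, 0 ≤ α → α < β → β ≤ 1 →
    |(({i : ℕ | 1 ≤ i ∧ i ≤ n ∧ α ≤ Int.fract (z * (b : ℝ) ^ i) ∧
      Int.fract (z * (b : ℝ) ^ i) < β}.ncard : ℕ) : ℝ) - (β - α) * n| ≤ E

/-- Let `B`, `A` and `δ > 0` be given.  There is `r` such that for all `ε > 0` there is `k` such that
for every real number `x ≠ 0` the following holds for all large `N` and all `1 ≤ D ≤ 2 ^ √N`.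

There is a set `Q` of at most `D N ^ r` primes such that for every `q ≥ 1` which has a prime factor
outside of `Q`, for all real `y` and all integers `J` and `M ≥ q / D`: for all but at most `M / N ^ A`
of the `M` integers `J ≤ a < J + M`, in every base `2 ≤ b ≤ B` the first `n` terms of the sequence
`((y + (a / q) x) b^i)_{i ≥ 1}` have discrepancy at most `N ^ (1/2 + δ)` (not normalized), for all
`n ≤ N`. For `H ≥ (D N ^ r) ^ k` at most `ε H` of the integers `1 ≤ q ≤ H` have all their prime factors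
in `Q`. -/
theorem result (B A : ℕ) (δ : ℝ) (hδ : 0 < δ) : ∃ r : ℕ, ∀ ε : ℝ, 0 < ε → ∃ k : ℕ, ∀ x : ℝ, x ≠ 0 →
    ∃ N₀ : ℕ, ∀ N D : ℕ, N₀ ≤ N → 1 ≤ D → D ≤ 2 ^ Nat.sqrt N → ∃ Q : Finset ℕ,
      (∀ p ∈ Q, p.Prime) ∧ Q.card ≤ D * N ^ r ∧
      (∀ q p : ℕ, 1 ≤ q → p.Prime → p ∣ q → p ∉ Q → ∀ (y : ℝ) (J : ℤ) (M : ℕ), q ≤ D * M →
        (({a : ℤ | J ≤ a ∧ a < J + M ∧ ¬ ∀ b : ℕ, 2 ≤ b → b ≤ B →
          DiscrepancyUpTo b N ((N : ℝ) ^ (1 / 2 + δ)) (y + a / q * x)}.ncard : ℕ) : ℝ) ≤
            M / (N : ℝ) ^ A) ∧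
      ∀ H : ℕ, (D * N ^ r) ^ k ≤ H →
        (({q : ℕ | 1 ≤ q ∧ q ≤ H ∧ ∀ p : ℕ, p.Prime → p ∣ q → p ∈ Q}.ncard : ℕ) : ℝ) ≤ ε * H := by
  classical
  obtain ⟨r, hr⟩ := Pool.Agent.K9h10.RM.main B A δ hδ
  refine ⟨r, fun ε hε => ?_⟩
  obtain ⟨k, hk⟩ := hr ε hε
  refine ⟨k, fun x hx => ?_⟩
  obtain ⟨N₀, hN₀⟩ := hk x hx
  refine ⟨max N₀ 1, fun N D hN hD1 hD => ?_⟩
  obtain ⟨Q, hQp, hQc, hQH, hQ⟩ := hN₀ N D ((le_max_left _ _).trans hN) hD1 hD
  have hN1 : 1 ≤ N := (le_max_right _ _).trans hN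
  have hNp : (0 : ℝ) < (N : ℝ) ^ A := by
    have : (0 : ℝ) < N := by exact_mod_cast hN1
    positivity
  refine ⟨Q, hQp, hQc, fun q p hq hp hpq hpQ y J M hM => ?_, fun H hH => ?_⟩
  · have h1 := hQ q hq (fun hsub => hpQ (hsub (Nat.mem_primeFactors.2 ⟨hp, hpq, by omega⟩))) y J M hM
    rw [le_div_iff₀ hNp]
    refine le_trans ?_ h1
    apply mul_le_mul_of_nonneg_right _ hNp.le
    refine Nat.cast_le.2 ?_
    have hfin : {m : ℕ | m < M ∧ ¬ ∀ b : ℕ, 2 ≤ b → b ≤ B →
          Pool.Agent.K9h10.RM.Dsc b N ((N : ℝ) ^ (1 / 2 + δ)) (y + (J + m) / q * x)}.Finite :=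
      (Set.finite_Iio M).subset fun m hm => hm.1
    refine le_trans (Set.ncard_le_ncard ?_ (hfin.image (fun m : ℕ => J + (m : ℤ))))
      (Set.ncard_image_le hfin)
    rintro a ⟨ha1, ha2, hbad⟩
    refine ⟨(a - J).toNat, ⟨by omega, fun hcon => hbad ?_⟩, by simp only; omega⟩
    intro b hb2 hbB n hn α β h0 h2 h3
    have h4 := hcon b hb2 hbB n hn α β h0 h2 h3
    have e1 : ((J : ℝ) + ((a - J).toNat : ℕ)) = a := by
      have : (((a - J).toNat : ℕ) : ℤ) = a - J := Int.toNat_of_nonneg (by omega)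
      have e2 : ((((a - J).toNat : ℕ) : ℤ) : ℝ) = ((a - J : ℤ) : ℝ) := by rw [this]
      push_cast at e2
      rw [e2]
      ring
    rw [e1] at h4
    have e2 : {i : ℕ | 1 ≤ i ∧ i ≤ n ∧ α ≤ Int.fract ((y + a / q * x) * (b : ℝ) ^ i) ∧
      Int.fract ((y + a / q * x) * (b : ℝ) ^ i) < β} = (((Icc 1 n).filter (fun i : ℕ =>
        α ≤ Int.fract ((y + a / q * x) * (b : ℝ) ^ i) ∧
          Int.fract ((y + a / q * x) * (b : ℝ) ^ i) < β) : Finset ℕ) : Set ℕ) := by
      ext i
      simp only [Set.mem_ofPred_eq, coe_filter, mem_Icc]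
      tauto
    rw [e2, Set.ncard_coe_finset]
    exact h4
  · refine le_trans (Nat.cast_le.2 ?_) (hQH H hH)
    have e2 : {q : ℕ | 1 ≤ q ∧ q ≤ H ∧ ∀ p : ℕ, p.Prime → p ∣ q → p ∈ Q} ⊆
        ((Pool.Agent.K9h10.RM.Sm Q H : Finset ℕ) : Set ℕ) := by
      rintro q ⟨h1, h2, h3⟩
      rw [mem_coe]
      unfold Pool.Agent.K9h10.RM.Sm
      rw [mem_filter, mem_Icc]
      exact ⟨⟨h1, h2⟩, fun p hp => h3 p (Nat.prime_of_mem_primeFactors hp)
        (Nat.dvd_of_mem_primeFactors hp)⟩
    exact (Set.ncard_le_ncard e2 (finite_toSet _)).trans (Set.ncard_coe_finset _).le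

end Pool.Agent.Results.MP_57632f_nt.RationalMultiples
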